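import Pool.Agent.PSS.StmtsS3

set_option autoImplicit false

/-! BLK (block S3): central idempotents of the Brauer quotients of the generic fibre. -/

open scoped BigOperators TensorProduct PowerSeries

noncomputable section

namespace Pool.Agent.PSS.H28

open Pool.Agent.PFC (tw IsTv)
open Pool.Agent.PFD.D2b (FrR)
open Pool.Agent.PSS.S0

section

variable {R V A : Type} [CommRing R] [CommGroup V] [Ring A] [Algebra R A] (α : V →* A)

theorem cw_apply (u : V) (a : A) : cw R α u a = α u * (a * α u⁻¹) := rfl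

theorem fx_mul (P : Subgroup V) {a b : A} (ha : a ∈ FxR (cw R α) P) (hb : b ∈ FxR (cw R α) P) :
    a * b ∈ FxR (cw R α) P := by
  intro u hu
  have h1 : α u * (a * α u⁻¹) = a := ha u hu
  have h2 : α u * (b * α u⁻¹) = b := hb u hu
  have h3 : α u⁻¹ * α u = 1 := by rw [← map_mul, inv_mul_cancel, map_one]
  rw [cw_apply]
  have e : α u * (a * b * α u⁻¹) = (α u * (a * α u⁻¹)) * (α u * (b * α u⁻¹)) := by
    have : (α u * (a * α u⁻¹)) * (α u * (b * α u⁻¹)) = α u * (a * ((α u⁻¹ * α u) * (b * α u⁻¹))) := by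
      simp only [mul_assoc]
    rw [this, h3, one_mul, ← mul_assoc a b]
  rw [e, h1, h2]

theorem fx_mono {P P' : Subgroup V} (h : P ≤ P') {a : A} (ha : a ∈ FxR (cw R α) P') :
    a ∈ FxR (cw R α) P := fun u hu => ha u (h hu)

theorem bk_up (hFCO : FcoStmt) (hFBK : FbkStmt) {E : Type} [Group E] [Finite V]
    (ℓ : ℕ) [Fact ℓ.Prime] (hℓ : (ℓ : R) = 0) (hV : IsPGroup ℓ V) (ψ : E →* MulAut V)
    (hper : Per R ψ α) {Q Q' : Subgroup V} (hQ : Q ≤ Q') {m : A} (hm : m ∈ BKR (cw R α) Q)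
    (hm' : m ∈ FxR (cw R α) Q') : m ∈ BKR (cw R α) Q' := by
  obtain ⟨Ω, _, act, b, c, hfr, -⟩ := hper
  letI act' : MulAction V Ω :=
    MulAction.compHom Ω ((MonoidHom.id V).prod (MonoidHom.id V))
  have hfr' : FrR (cw R α) b c := by
    refine ⟨fun g t => hfr.1 (g, g) t, fun g t n => hfr.2.1 (g, g) t n, hfr.2.2⟩
  refine hFBK R V A Ω (cw R α) b c hfr' Q' m hm' fun ω hω => ?_
  exact hFCO ℓ R V A Ω (cw R α) b c hℓ hV hfr' Q m hm ω fun h hh => hω h (hQ hh)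

end

theorem blk (hBLS : S3.BlsStmt) (hUNW : S3.UnwStmt) (hPRQ : S3.PrqStmt) (hGFB : S3.GfbStmt)
    (hGFQ : S3.GfqStmt) (hBQX : BqxStmt) (hFCO : FcoStmt) (hFBK : FbkStmt) :
    S3.BlkStmt := by
  intro ℓ hp F F' V E A As K K0 _ _ _ _ _ _ _ _ _ _ _ _ _ _ _ φ α W _ ψ γ q lam lam0 x y x0 y0
    hinj hV hE hidx hD
  classical
  obtain ⟨⟨lamS, -, hrfS⟩, hperS, huniS, -⟩ :=
    hGFB F⟦X⟧ F' W E As K ψ γ lam x y hD.rf hD.per hD.uni
  have hW : IsPGroup ℓ W := hV.to_subgroup W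
  have hℓF' : (ℓ : F') = 0 := CharP.cast_eq_zero F' ℓ
  have hℓR : (ℓ : F⟦X⟧) = 0 := by
    have h1 : (ℓ : F⟦X⟧) = PowerSeries.C (ℓ : F) := (map_natCast _ ℓ).symm
    rw [h1, CharP.cast_eq_zero F ℓ, map_zero]
  intro Q
  induction Q using WellFoundedGT.induction with
  | ind Q ih =>
  intro e he hid hcen htop
  by_cases hQ : Q = ⊤
  · rw [hQ]
    exact htop
  have hup : ∀ Q' : Subgroup W, Q < Q' → e ∈ BKR (cw F' (bcw (R := F⟦X⟧) (S := F') γ)) Q' := by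
    intro Q' hQ'
    have heQ' : e ∈ FxR (cw F' (bcw (R := F⟦X⟧) (S := F') γ)) Q' := fx_mono _ le_top he
    refine ih Q' hQ' e he ?_ ?_ htop
    · exact bk_up _ hFCO hFBK ℓ hℓF' hW ψ hperS hQ'.le hid
        (Submodule.sub_mem _ (fx_mul _ Q' heQ' heQ') heQ')
    · intro a ha
      exact bk_up _ hFCO hFBK ℓ hℓF' hW ψ hperS hQ'.le (hcen a (fx_mono _ hQ'.le ha))
        (Submodule.sub_mem _ (fx_mul _ Q' heQ' ha) (fx_mul _ Q' ha heQ'))
  obtain ⟨w, hw⟩ : ∃ w, w ∉ Q := by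
    by_contra h
    push Not at h
    exact hQ (eq_top_iff.2 fun w _ => h w)
  obtain ⟨Bs, _, _, γB, βs, hBs⟩ := hBQX F⟦X⟧ W As γ Q
  obtain ⟨B, _, _, αB, β, hB⟩ := hBQX F V A α (Q.map W.subtype)
  obtain ⟨D, _, _, γD, βD, hDq⟩ := hBQX F' W (F' ⊗[F⟦X⟧] As) (bcw (R := F⟦X⟧) (S := F') γ) Q
  obtain ⟨E1, hE1⟩ : ∃ E1 : Subgroup E, ∀ e, e ∈ E1 ↔ ∀ u ∈ Q, ψ e u = u :=
    ⟨{ carrier := {e | ∀ u ∈ Q, ψ e u = u}
       one_mem' := fun u _ => by rw [map_one]; rfl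
       mul_mem' := fun {a b} ha hb u hu => by
         rw [map_mul, MulAut.mul_apply, hb u hu, ha u hu]
       inv_mem' := fun {a} ha u hu => by
         have h1 := ha u hu
         rw [map_inv]
         calc (ψ a)⁻¹ u = (ψ a)⁻¹ (ψ a u) := by rw [h1]
           _ = u := MulAut.inv_apply_self _ (ψ a) u }, fun e => Iff.rfl⟩
  obtain ⟨qB, lamB, lamB0, KB, KB0, _, _, xB, yB, xB0, yB0, -, hlamB, hDB⟩ :=
    hPRQ ℓ F V E A As K K0 B Bs φ α W ψ γ q lam lam0 x y x0 y0 Q E1 γB βs αB β hV hE hD hBs hB hE1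
  have hE' : ¬ ℓ ∣ Nat.card E1 := fun h => hE (h.trans (Subgroup.card_subgroup_dvd_card E1))
  obtain ⟨u, u', huu', hu'u, hsum⟩ :=
    hUNW ℓ F V E1 B Bs KB KB0 (φ.comp E1.subtype) αB W (ψ.comp E1.subtype) γB qB lamB lamB0
      xB yB xB0 yB0 hV hE' hidx hDB w
  obtain ⟨κ, lamD, -, hκs, hκw, hrfD⟩ :=
    hGFQ ℓ F⟦X⟧ F' W E As Bs D K KB ψ γ lam x y Q γB βs γD βD lamB xB yB hℓR hW hD.rf hD.per
      hD.uni hBs hDq hDB.rf hlamB
  have hz := hBLS ℓ F' W E (F' ⊗[F⟦X⟧] As) D KB ψ (bcw (R := F⟦X⟧) (S := F') γ) Q γD βD lamD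
    (fun k => κ (xB k)) (fun k => κ (yB k)) e w hℓF' hW hperS hDq hrfD he hid hcen hup hw
  have h1 : ∑ k, κ (xB k) * γD w * κ (yB k) =
      algebraMap F⟦X⟧ F' (PowerSeries.X : F⟦X⟧) • κ u := by
    rw [← hκs, ← hsum, map_sum]
    refine Finset.sum_congr rfl fun k _ => ?_
    rw [map_mul, map_mul, hκw]
  have h2 : βD e * (algebraMap F⟦X⟧ F' (PowerSeries.X : F⟦X⟧) • κ u) = 0 := by
    rw [← h1]
    exact hz
  have hX : algebraMap F⟦X⟧ F' (PowerSeries.X : F⟦X⟧) ≠ 0 := by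
    intro h
    exact PowerSeries.X_ne_zero (hinj (h.trans (map_zero _).symm))
  rw [mul_smul_comm] at h2
  have h3 : βD e * κ u = 0 := (smul_eq_zero.1 h2).resolve_left hX
  have h4 : βD e = 0 := by
    have h5 : κ u * κ u' = 1 := by rw [← map_mul, huu', map_one]
    calc βD e = βD e * (κ u * κ u') := by rw [h5, mul_one]
      _ = (βD e * κ u) * κ u' := (mul_assoc _ _ _).symm
      _ = 0 := by rw [h3, zero_mul]
  exact (hDq.ker e (fx_mono _ le_top he)).1 h4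

end Pool.Agent.PSS.H28
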