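import Pool.Agent.PSS.StmtsS3

set_option autoImplicit false

open scoped BigOperators

namespace Pool.Agent.PSS.H28

/-! VAN (block S3): vanishing by rotation of tuples. -/

/-- sum of a function invariant under a permutation of `ℓ`-power order which vanishes at the fixed points -/
theorem sum_inv_zero {X Z : Type} [Fintype X] [AddCommGroup Z] {ℓ m : ℕ} [hp : Fact ℓ.Prime]
    (hZ : ∀ z : Z, ℓ • z = 0) (σ : X → X) (hσ : ∀ x, σ^[ℓ ^ m] x = x) (Θ : X → Z)
    (hinv : ∀ x, Θ (σ x) = Θ x) (hfix : ∀ x, σ x = x → Θ x = 0) : ∑ x, Θ x = 0 := by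
  classical
  have h1 : ∑ x, Θ x = ∑ z ∈ Finset.univ.image Θ, ∑ x ∈ Finset.univ.filter (fun x => Θ x = z), Θ x :=
    (Finset.sum_fiberwise_of_maps_to (fun x _ => Finset.mem_image_of_mem Θ (Finset.mem_univ x)) Θ).symm
  rw [h1]
  refine Finset.sum_eq_zero fun z _ => ?_
  have h2 : ∑ x ∈ Finset.univ.filter (fun x => Θ x = z), Θ x =
      (Finset.univ.filter (fun x => Θ x = z)).card • z := by
    rw [Finset.sum_congr rfl (fun x hx => (Finset.mem_filter.1 hx).2), Finset.sum_const]
  rw [h2]
  by_cases hz : z = 0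
  · rw [hz, smul_zero]
  · have hd : ℓ ∣ (Finset.univ.filter (fun x => Θ x = z)).card := by
      let α := {x : X // Θ x = z}
      let f : Function.End α := fun x => ⟨σ x.1, (hinv x.1).trans x.2⟩
      have hit : ∀ (n : ℕ) (x : α), ((f ^ n) x).1 = σ^[n] x.1 := by
        intro n
        induction n with
        | zero => intro x; rfl
        | succ n ih =>
          intro x
          rw [pow_succ]
          change ((f ^ n) (f x)).1 = _
          rw [ih (f x)]
          rfl
      have hf : f ^ ℓ ^ m = 1 := by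
        funext x
        apply Subtype.ext
        rw [hit]
        exact hσ x.1
      have h3 := Equiv.Perm.card_fixedPoints_modEq (p := ℓ) (n := m) hf
      have h4 : Fintype.card (Function.fixedPoints f) = 0 := by
        rw [Fintype.card_eq_zero_iff]
        refine ⟨fun x => ?_⟩
        have h5 : f x.1 = x.1 := x.2
        have h6 := hfix x.1.1 (congrArg Subtype.val h5)
        exact hz (x.1.2.symm.trans h6)
      rw [h4] at h3
      have h5 : Fintype.card α = (Finset.univ.filter (fun x => Θ x = z)).card :=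
        Fintype.card_subtype _
      rw [h5] at h3
      exact (Nat.modEq_zero_iff_dvd).1 h3
    obtain ⟨d, hd⟩ := hd
    rw [hd, mul_comm, mul_smul, hZ, smul_zero]

section

variable {W G B Z : Type} [CommGroup W] [CommGroup G] [Ring B] [AddCommGroup Z]

/-- the product of the `a` at the partial products -/
def q (a : G → B) : G → List G → B
  | _, [] => 1
  | x, h :: t => a (x * h) * q a (x * h) t

theorem q_append (a : G → B) (x : G) (L : List G) (h : G) :
    q a x (L ++ [h]) = q a x L * a (x * L.prod * h) := by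
  induction L generalizing x with
  | nil => simp [q]
  | cons c t ih =>
    rw [List.cons_append]
    simp only [q]
    rw [ih, List.prod_cons, mul_assoc, mul_assoc]
    simp only [mul_assoc]

theorem q_conj (γ : W →* B) (π : W →* G) (a : G → B)
    (h : ∀ v g, γ v * a g * γ v⁻¹ = a (π v * g)) (v : W) (x : G) (L : List G) :
    γ v * q a x L * γ v⁻¹ = q a (π v * x) L := by
  have hv : γ v * γ v⁻¹ = 1 := by rw [← map_mul, mul_inv_cancel, map_one]
  have hv' : γ v⁻¹ * γ v = 1 := by rw [← map_mul, inv_mul_cancel, map_one]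
  induction L generalizing x with
  | nil => simp [q, hv]
  | cons c t ih =>
    simp only [q]
    have e : γ v * (a (x * c) * q a (x * c) t) * γ v⁻¹ =
        (γ v * a (x * c) * γ v⁻¹) * (γ v * q a (x * c) t * γ v⁻¹) := by
      have : γ v * a (x * c) * γ v⁻¹ * (γ v * q a (x * c) t * γ v⁻¹) =
        γ v * a (x * c) * (γ v⁻¹ * γ v) * q a (x * c) t * γ v⁻¹ := by
        simp only [mul_assoc]
      rw [this, hv', mul_one]
      simp only [mul_assoc]
    rw [e, h, ih, mul_assoc]

theorem sum_q [Fintype G] (a : G → B) (k : ℕ) (x : G) :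
    ∑ h : Fin k → G, q a x (List.ofFn h) = (∑ g, a g) ^ k := by
  induction k generalizing x with
  | zero => simp [q]
  | succ k ih =>
    rw [← (Fin.consEquiv (fun _ => G)).sum_comp, Fintype.sum_prod_type]
    have h1 : ∀ g : G, ∑ h : Fin k → G, q a x (List.ofFn ((Fin.consEquiv (fun _ => G)) (g, h))) =
        a (x * g) * (∑ g, a g) ^ k := by
      intro g
      rw [← ih (x * g), Finset.mul_sum]
      refine Finset.sum_congr rfl fun h _ => ?_
      simp [Fin.consEquiv, List.ofFn_succ, q]
    rw [Finset.sum_congr rfl fun g _ => h1 g, ← Finset.sum_mul, pow_succ']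
    congr 1
    exact Fintype.sum_equiv (Equiv.mulLeft x) _ _ (fun _ => rfl)

theorem van_aux [Fintype G] (ℓ : ℕ) [hp : Fact ℓ.Prime] (γ : W →* B) (π : W →* G) (a : G → B) (f : B →+ Z)
    (hG : IsPGroup ℓ G) (hZ : ∀ z : Z, ℓ • z = 0) (hf : ∀ x y, f (x * y) = f (y * x))
    (hπ : Function.Surjective π) (ha : ∀ v g, γ v * a g * γ v⁻¹ = a (π v * g))
    (he : a 1 * ∑ g, a g = a 1) (w : W) (hw : π w ≠ 1) : f (γ w * a 1) = 0 := by
  classical
  have hv : ∀ v, γ v * γ v⁻¹ = 1 := fun v => by rw [← map_mul, mul_inv_cancel, map_one]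
  have hv' : ∀ v, γ v⁻¹ * γ v = 1 := fun v => by rw [← map_mul, inv_mul_cancel, map_one]
  have hcomm : ∀ v, γ v * γ w = γ w * γ v := fun v => by rw [← map_mul, mul_comm, map_mul]
  obtain ⟨m, hm⟩ := IsPGroup.iff_card.1 hG
  have hcard : Nat.card G = Fintype.card G := Nat.card_eq_fintype_card
  obtain ⟨k, hk⟩ : ∃ k, Fintype.card G = k + 1 :=
    ⟨Fintype.card G - 1, by have := Fintype.card_pos (α := G); omega⟩
  have haw : γ w * a 1 * γ w⁻¹ = a (π w) := by rw [ha, mul_one]
  -- `a 1 * e ^ j = a 1`
  have hpow : ∀ j : ℕ, a 1 * (∑ g, a g) ^ j = a 1 := by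
    intro j
    induction j with
    | zero => rw [pow_zero, mul_one]
    | succ j ih => rw [pow_succ, ← mul_assoc, ih, he]
  obtain ⟨Θ, hΘ⟩ : ∃ Θ : (Fin (k + 1) → G) → Z, Θ = fun h =>
    if (List.ofFn h).prod = π w then f (γ w * q a 1 (List.ofFn h)) else 0 := ⟨_, rfl⟩
  -- the sum
  have hsum : ∑ h, Θ h = f (γ w * a 1) := by
    rw [← (Fin.snocEquiv (fun _ => G)).sum_comp, Fintype.sum_prod_type, Finset.sum_comm]
    have h1 : ∀ h : Fin k → G, ∑ g : G, Θ ((Fin.snocEquiv (fun _ => G)) (g, h)) =
        f (γ w * a 1 * q a 1 (List.ofFn h)) := by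
      intro h
      have h2 : ∀ g : G, List.ofFn ((Fin.snocEquiv (fun _ => G)) (g, h)) = List.ofFn h ++ [g] := by
        intro g
        rw [List.ofFn_succ', List.concat_eq_append]
        simp [Fin.snocEquiv]
      rw [Finset.sum_eq_single ((List.ofFn h).prod⁻¹ * π w)]
      · rw [hΘ]
        simp only [h2, List.prod_append, List.prod_cons, List.prod_nil, mul_one,
          mul_inv_cancel_left, if_true]
        rw [q_append, one_mul, mul_inv_cancel_left, ← haw]
        have e : γ w * (q a 1 (List.ofFn h) * (γ w * a 1 * γ w⁻¹)) =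
          (γ w * q a 1 (List.ofFn h) * γ w * a 1) * γ w⁻¹ := by simp only [mul_assoc]
        rw [e, hf, ← mul_assoc, ← mul_assoc, ← mul_assoc, hv', one_mul, mul_assoc, hf]
      · intro g _ hg
        rw [hΘ]
        simp only [h2, List.prod_append, List.prod_cons, List.prod_nil, mul_one]
        rw [if_neg]
        intro h3
        exact hg (by rw [← h3, inv_mul_cancel_left])
      · intro h3
        exact absurd (Finset.mem_univ _) h3
    rw [Finset.sum_congr rfl fun h _ => h1 h, ← map_sum, ← Finset.mul_sum, sum_q, mul_assoc, hpow]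
  rw [← hsum]
  refine sum_inv_zero (ℓ := ℓ) (m := m) hZ (fun h => h ∘ finRotate (k + 1)) ?_ Θ ?_ ?_
  · intro h
    have hit : ∀ (n : ℕ) (i : Fin (k + 1)),
        ((fun h : Fin (k + 1) → G => h ∘ finRotate (k + 1))^[n] h) i =
          h ⟨(i.val + n) % (k + 1), Nat.mod_lt _ (Nat.succ_pos k)⟩ := by
      intro n
      induction n with
      | zero =>
        intro i
        rw [Function.iterate_zero_apply]
        congr 1
        apply Fin.ext
        simp only [add_zero]
        exact (Nat.mod_eq_of_lt i.2).symm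
      | succ n ih =>
        intro i
        rw [Function.iterate_succ_apply']
        simp only [Function.comp_apply]
        rw [ih, finRotate_apply]
        congr 1
        apply Fin.ext
        simp only [Fin.val_add]
        rw [Nat.mod_add_mod]
        have h1 : (i.val + ((1 : Fin (k + 1)) : ℕ) + n) % (k + 1) = (i.val + (n + 1)) % (k + 1) := by
          have h2 : ((1 : Fin (k + 1)) : ℕ) = 1 % (k + 1) := Fin.val_one' (k + 1)
          rw [h2, show i.val + 1 % (k + 1) + n = i.val + n + 1 % (k + 1) by ring, Nat.add_mod_mod,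
            add_assoc]
        exact h1
    funext i
    have hpm : ℓ ^ m = k + 1 := by rw [← hm, hcard, hk]
    rw [hpm, hit]
    congr 1
    apply Fin.ext
    simp only [Nat.add_mod_right]
    exact Nat.mod_eq_of_lt i.2
  · intro h
    rw [hΘ]
    have hL : List.ofFn (h ∘ finRotate (k + 1)) = (List.ofFn fun i : Fin k => h i.succ) ++ [h 0] := by
      rw [List.ofFn_succ', List.concat_eq_append]
      congr 1
      · congr 1
        funext i
        simp only [Function.comp_apply, finRotate_apply, Fin.coeSucc_eq_succ]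
      · simp only [Function.comp_apply, finRotate_apply, Fin.last_add_one]
    have hL0 : List.ofFn h = h 0 :: List.ofFn fun i : Fin k => h i.succ := List.ofFn_succ
    simp only [hL, hL0]
    obtain ⟨t, ht⟩ : ∃ t, t = List.ofFn fun i : Fin k => h i.succ := ⟨_, rfl⟩
    rw [← ht]
    have p1 : (t ++ [h 0]).prod = t.prod * h 0 := by
      rw [List.prod_append, List.prod_cons, List.prod_nil, mul_one]
    have p2 : (h 0 :: t).prod = h 0 * t.prod := List.prod_cons
    by_cases hc : h 0 * t.prod = π w
    · have hc' : t.prod * h 0 = π w := by rw [mul_comm, hc]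
      rw [if_pos (p1.trans hc'), if_pos (p2.trans hc), q_append, one_mul, hc']
      simp only [q, one_mul]
      obtain ⟨v, hvv⟩ := hπ (h 0)
      have e1 : q a (h 0) t = γ v * q a 1 t * γ v⁻¹ := by
        rw [q_conj γ π a ha v 1 t, mul_one, hvv]
      have e2 : a (h 0) = γ v * a 1 * γ v⁻¹ := by rw [ha, mul_one, hvv]
      rw [e1, e2, ← haw]
      -- f (γ w * (q * (γ w a γ w⁻¹))) = f (γ w * (γ v a γ v⁻¹ * (γ v q γ v⁻¹)))
      have s1 : f (γ w * (q a 1 t * (γ w * a 1 * γ w⁻¹))) = f (q a 1 t * γ w * a 1) := by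
        have e : γ w * (q a 1 t * (γ w * a 1 * γ w⁻¹)) =
          (γ w * (q a 1 t * γ w * a 1)) * γ w⁻¹ := by simp only [mul_assoc]
        rw [e, hf, ← mul_assoc, hv', one_mul]
      have s2 : f (γ w * (γ v * a 1 * γ v⁻¹ * (γ v * q a 1 t * γ v⁻¹))) =
          f (q a 1 t * γ w * a 1) := by
        have e : γ w * (γ v * a 1 * γ v⁻¹ * (γ v * q a 1 t * γ v⁻¹)) =
          (γ w * γ v) * (a 1 * ((γ v⁻¹ * γ v) * q a 1 t)) * γ v⁻¹ := by simp only [mul_assoc]
        rw [e, hv', one_mul, hf, ← hcomm v]
        have e' : γ v⁻¹ * (γ v * γ w * (a 1 * q a 1 t)) =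
          (γ v⁻¹ * γ v) * (γ w * a 1 * q a 1 t) := by simp only [mul_assoc]
        rw [e', hv', one_mul, hf, ← mul_assoc]
      rw [s1, s2]
    · have hc' : ¬ t.prod * h 0 = π w := by rwa [mul_comm]
      rw [if_neg (fun h3 => hc' (p1.symm.trans h3)), if_neg (fun h3 => hc (p2.symm.trans h3))]
  · intro h hfix
    rw [hΘ]
    simp only
    rw [if_neg]
    intro hprod
    apply hw
    have hconst : ∀ i : Fin (k + 1), h i = h 0 := by
      intro i
      induction i using Fin.induction with
      | zero => rfl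
      | succ i ih =>
        rw [← ih]
        have := congrFun hfix i.castSucc
        simp only [Function.comp_apply, finRotate_apply, Fin.coeSucc_eq_succ] at this
        exact this
    have h1 : h = fun _ => h 0 := funext hconst
    have h2 : ∀ g : G, g ^ (k + 1) = 1 := fun g => by rw [← hk]; exact pow_card_eq_one
    rw [← hprod, h1, List.ofFn_const, List.prod_replicate]
    exact h2 _

end

theorem van : S3.VanStmt := by
  intro ℓ hp W G B Z _ _ _ _ _ γ π a f hG hZ hf hπ ha he w hw
  exact van_aux ℓ γ π a f hG hZ hf hπ ha he w hw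

end Pool.Agent.PSS.H28
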